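import Pool.Agent.H606.OS.Stm

/-!
# Project OS (helper606): L2K, PB, CWG
-/

open MeasureTheory Filter Topology Finset
open Pool.Agent.H606.OS

namespace Pool.Agent.H71.OS.PB

lemma ka_pos (x : ℝ) : 0 < ka x := by unfold ka; positivity

lemma ka_le_one (x : ℝ) : ka x ≤ 1 := by
  unfold ka
  rw [div_le_one (by positivity)]
  nlinarith [sq_nonneg x]

lemma ka_cont : Continuous ka := by
  unfold ka
  exact continuous_const.div (by fun_prop) (fun x => by positivity)

lemma ka_near {x y : ℝ} (h : |x - y| ≤ 1) : ka y ≤ 3 * ka x := by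
  unfold ka
  rw [mul_one_div, div_le_div_iff₀ (by positivity) (by positivity)]
  obtain ⟨h1, h2⟩ := abs_le.1 h
  nlinarith [sq_nonneg (2 * y - x)]

lemma ka_even (x : ℝ) : ka (-x) = ka x := by unfold ka; rw [neg_sq]

lemma ka_int : Integrable ka := by
  refine integrable_inv_one_add_sq.congr (Eventually.of_forall fun x => ?_)
  show (1 + x ^ 2)⁻¹ = ka x
  unfold ka
  rw [one_div]

lemma ka_integral : ∫ x, ka x = Real.pi := by
  have : ka = fun x : ℝ => (1 + x ^ 2)⁻¹ := by
    funext x; unfold ka; rw [one_div]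
  rw [this]
  exact integral_univ_inv_one_add_sq

lemma kc_int {c : ℝ} (hc : 0 < c) : Integrable (fun r => ka (c * r)) :=
  ka_int.comp_mul_left' hc.ne'

lemma kc_integral {c : ℝ} (hc : 0 < c) : ∫ r, ka (c * r) = Real.pi / c := by
  rw [Measure.integral_comp_mul_left ka c, ka_integral, abs_of_pos (inv_pos.2 hc), smul_eq_mul]
  field_simp

/-- indicator of an interval as a function of the end point -/
lemma ind_eq (x t l : ℝ) : (Set.Ioc t (t + l)).indicator (fun _ => (1 : ℝ)) x =
    (Set.Ico (x - l) x).indicator (fun _ => (1 : ℝ)) t := by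
  by_cases h : x ∈ Set.Ioc t (t + l)
  · rw [Set.indicator_of_mem h, Set.indicator_of_mem]
    obtain ⟨h1, h2⟩ := h
    exact ⟨by linarith, h1⟩
  · rw [Set.indicator_of_notMem h, Set.indicator_of_notMem]
    rintro ⟨h1, h2⟩
    exact h ⟨h2, by linarith⟩

lemma ind_int (a b : ℝ) : Integrable ((Set.Ico a b).indicator (fun _ => (1 : ℝ))) :=
  (integrable_indicator_iff measurableSet_Ico).2 (integrableOn_const (by simp) (by simp))

lemma ind_integral {a b : ℝ} (h : a ≤ b) :
    ∫ t, (Set.Ico a b).indicator (fun _ => (1 : ℝ)) t = b - a := by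
  rw [integral_indicator measurableSet_Ico]
  simp [h]

lemma ind_nonneg (S : Set ℝ) (t : ℝ) : 0 ≤ S.indicator (fun _ => (1 : ℝ)) t :=
  Set.indicator_nonneg (fun _ _ => zero_le_one) t

lemma ind_le_one (S : Set ℝ) (t : ℝ) : S.indicator (fun _ => (1 : ℝ)) t ≤ 1 :=
  Set.indicator_le' (fun _ _ => le_rfl) (fun _ _ => zero_le_one) t

variable {ι : Type} {Z : Finset ι} {w p : ι → ℝ} {L c : ℝ}

lemma wn_eq (t : ℝ) : wn Z w p L t =
    ∑ s ∈ Z, w s * (Set.Ico (p s - 1 / L) (p s)).indicator (fun _ => (1 : ℝ)) t := by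
  unfold wn
  exact Finset.sum_congr rfl fun s _ => by rw [ind_eq]

lemma wn_fun : wn Z w p L = fun t =>
    ∑ s ∈ Z, w s * (Set.Ico (p s - 1 / L) (p s)).indicator (fun _ => (1 : ℝ)) t := by
  funext t
  exact wn_eq t

lemma wn_nonneg (hw : ∀ s ∈ Z, 0 ≤ w s) (t : ℝ) : 0 ≤ wn Z w p L t := by
  rw [wn_eq]
  exact Finset.sum_nonneg fun s hs => mul_nonneg (hw s hs) (ind_nonneg _ _)

lemma wn_le (hw : ∀ s ∈ Z, 0 ≤ w s) (t : ℝ) : wn Z w p L t ≤ ∑ s ∈ Z, w s := by
  rw [wn_eq]
  exact Finset.sum_le_sum fun s hs => mul_le_of_le_one_right (hw s hs) (ind_le_one _ _)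

lemma wn_int : Integrable (wn Z w p L) := by
  rw [wn_fun]
  exact integrable_finsetSum _ fun s _ => (ind_int _ _).const_mul _

lemma wn_meas : Measurable (wn Z w p L) := by
  rw [wn_fun]
  exact Finset.measurable_fun_sum _ fun s _ =>
    (measurable_const.indicator measurableSet_Ico).const_mul _

lemma wn_sq_int (hw : ∀ s ∈ Z, 0 ≤ w s) : Integrable (fun t => wn Z w p L t ^ 2) := by
  refine (wn_int (Z := Z) (w := w) (p := p) (L := L)).const_mul (∑ s ∈ Z, w s) |>.mono'
    (wn_meas.pow_const 2).aestronglyMeasurable (Eventually.of_forall fun t => ?_)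
  rw [Real.norm_eq_abs, abs_of_nonneg (by positivity), pow_two]
  exact mul_le_mul_of_nonneg_right (wn_le hw t) (wn_nonneg hw t)

/-- a kernel times a bounded function -/
lemma kf_int (hc : 0 < c) {f : ℝ → ℝ} (hf : Measurable f) {B : ℝ} (hB : ∀ t, |f t| ≤ B) (t : ℝ) :
    Integrable (fun r => ka (c * r) * f (t - r)) := by
  refine ((kc_int hc).mul_const B).mono' ?_ (Eventually.of_forall fun r => ?_)
  · exact ((ka_cont.measurable.comp (measurable_const_mul c)).mul
      (hf.comp (measurable_const.sub measurable_id))).aestronglyMeasurable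
  · rw [Real.norm_eq_abs, abs_mul, abs_of_pos (ka_pos _)]
    exact mul_le_mul_of_nonneg_left (hB _) (ka_pos _).le

/-- pointwise bound of the kernel by an average -/
lemma ka_avg (hc : 0 < c) (hcL : c ≤ L) (x t : ℝ) :
    ka (c * (x - t)) ≤ 3 * L * ∫ r, ka (c * r) *
      (Set.Ico (x - 1 / L) x).indicator (fun _ => (1 : ℝ)) (t - r) := by
  have hL : 0 < L := hc.trans_le hcL
  have h1 : ∫ r, ka (c * (x - t)) / 3 *
      (Set.Ico (x - 1 / L) x).indicator (fun _ => (1 : ℝ)) (t - r) ≤
      ∫ r, ka (c * r) * (Set.Ico (x - 1 / L) x).indicator (fun _ => (1 : ℝ)) (t - r) := by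
    refine integral_mono (((ind_int _ _).comp_sub_left t).const_mul _)
      (kf_int hc (measurable_const.indicator measurableSet_Ico) (B := 1) (fun s => ?_) t)
      (fun r => ?_)
    · rw [abs_of_nonneg (ind_nonneg _ _)]
      exact ind_le_one _ _
    · show ka (c * (x - t)) / 3 * (Set.Ico (x - 1 / L) x).indicator (fun _ => (1 : ℝ)) (t - r) ≤
        ka (c * r) * (Set.Ico (x - 1 / L) x).indicator (fun _ => (1 : ℝ)) (t - r)
      by_cases hm : t - r ∈ Set.Ico (x - 1 / L) x
      · rw [Set.indicator_of_mem hm, mul_one, mul_one]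
        obtain ⟨h2, h3⟩ := hm
        have h4 : |c * r - c * (t - x)| ≤ 1 := by
          rw [← mul_sub, abs_mul, abs_of_pos hc]
          have h5 : |r - (t - x)| ≤ 1 / L := by
            rw [abs_le]
            have : 0 < 1 / L := by positivity
            constructor <;> linarith
          calc c * |r - (t - x)| ≤ L * (1 / L) := mul_le_mul hcL h5 (abs_nonneg _) hL.le
            _ = 1 := by field_simp
        have h6 := ka_near h4
        have h7 : ka (c * (x - t)) = ka (c * (t - x)) := by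
          rw [← ka_even]
          ring_nf
        rw [h7]
        linarith
      · rw [Set.indicator_of_notMem hm, mul_zero, mul_zero]
  have h2 : ∫ r, ka (c * (x - t)) / 3 *
      (Set.Ico (x - 1 / L) x).indicator (fun _ => (1 : ℝ)) (t - r) =
      ka (c * (x - t)) / 3 * (1 / L) := by
    rw [integral_const_mul, integral_sub_left_eq_self
      (fun r => (Set.Ico (x - 1 / L) x).indicator (fun _ => (1 : ℝ)) r) volume t,
      ind_integral (by have : 0 < 1 / L := by positivity
                       linarith)]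
    ring
  rw [h2] at h1
  have h3 := mul_le_mul_of_nonneg_left h1 (show 0 ≤ 3 * L by positivity)
  refine le_trans (le_of_eq ?_) h3
  field_simp

theorem l2k : ∀ (ι : Type) (Z : Finset ι) (w p : ι → ℝ) (L c : ℝ),
    0 < c → c ≤ L → (∀ s ∈ Z, 0 ≤ w s) →
    ∫ t : ℝ, (∑ s ∈ Z, w s * ka (c * (p s - t))) ^ 2 ≤
      9 * Real.pi ^ 2 * (L / c) ^ 2 * ∫ t : ℝ, wn Z w p L t ^ 2 := by
  intro ι Z w p L c hc hcL hw
  have hL : 0 < L := hc.trans_le hcL
  have hpi := Real.pi_pos
  obtain ⟨W, hW⟩ : ∃ W, W = ∑ s ∈ Z, w s := ⟨_, rfl⟩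
  have hW0 : 0 ≤ W := by rw [hW]; exact Finset.sum_nonneg hw
  have hb1 : ∀ t, |wn Z w p L t| ≤ W := fun t => by
    rw [abs_of_nonneg (wn_nonneg hw t), hW]
    exact wn_le hw t
  have hb2 : ∀ t, |wn Z w p L t ^ 2| ≤ W ^ 2 := fun t => by
    rw [abs_pow]
    exact pow_le_pow_left₀ (abs_nonneg _) (hb1 t) 2
  have i1 : ∀ t, Integrable (fun r => ka (c * r) * wn Z w p L (t - r)) := kf_int hc wn_meas hb1
  have i2 : ∀ t, Integrable (fun r => ka (c * r) * wn Z w p L (t - r) ^ 2) :=
    kf_int (f := fun t => wn Z w p L t ^ 2) hc (wn_meas.pow_const 2) hb2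
  -- pointwise
  have h1 : ∀ t, ∑ s ∈ Z, w s * ka (c * (p s - t)) ≤
      3 * L * ∫ r, ka (c * r) * wn Z w p L (t - r) := by
    intro t
    have h2 : ∫ r, ka (c * r) * wn Z w p L (t - r) = ∑ s ∈ Z, w s * ∫ r, ka (c * r) *
        (Set.Ico (p s - 1 / L) (p s)).indicator (fun _ => (1 : ℝ)) (t - r) := by
      have h3 : (fun r => ka (c * r) * wn Z w p L (t - r)) = fun r => ∑ s ∈ Z, w s *
          (ka (c * r) * (Set.Ico (p s - 1 / L) (p s)).indicator (fun _ => (1 : ℝ)) (t - r)) := by
        funext r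
        rw [wn_eq, Finset.mul_sum]
        exact Finset.sum_congr rfl fun s _ => by ring
      rw [h3, integral_finsetSum]
      · exact Finset.sum_congr rfl fun s _ => by rw [integral_const_mul]
      · intro s _
        refine (kf_int hc (measurable_const.indicator measurableSet_Ico) (B := 1)
          (fun s => ?_) t).const_mul _
        rw [abs_of_nonneg (ind_nonneg _ _)]
        exact ind_le_one _ _
    rw [h2, Finset.mul_sum]
    refine Finset.sum_le_sum fun s hs => ?_
    have := mul_le_mul_of_nonneg_left (ka_avg hc hcL (p s) t) (hw s hs)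
    linarith
  -- Cauchy-Schwarz
  have h2 : ∀ t, (∫ r, ka (c * r) * wn Z w p L (t - r)) ^ 2 ≤
      Real.pi / c * ∫ r, ka (c * r) * wn Z w p L (t - r) ^ 2 := by
    intro t
    obtain ⟨A, hA⟩ : ∃ A, A = ∫ r, ka (c * r) * wn Z w p L (t - r) := ⟨_, rfl⟩
    obtain ⟨B, hB⟩ : ∃ B, B = ∫ r, ka (c * r) * wn Z w p L (t - r) ^ 2 := ⟨_, rfl⟩
    obtain ⟨M, hM⟩ : ∃ M, M = Real.pi / c := ⟨_, rfl⟩
    have hM0 : 0 < M := by rw [hM]; positivity
    have h3 : 0 ≤ ∫ r, ka (c * r) * (wn Z w p L (t - r) - A / M) ^ 2 :=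
      integral_nonneg fun r => mul_nonneg (ka_pos _).le (sq_nonneg _)
    have h4 : (fun r => ka (c * r) * (wn Z w p L (t - r) - A / M) ^ 2) = fun r =>
        ka (c * r) * wn Z w p L (t - r) ^ 2 - 2 * (A / M) * (ka (c * r) * wn Z w p L (t - r)) +
        (A / M) ^ 2 * ka (c * r) := by
      funext r
      ring
    have i3 : Integrable (fun r => ka (c * r) * wn Z w p L (t - r) ^ 2 -
        2 * (A / M) * (ka (c * r) * wn Z w p L (t - r))) := (i2 t).sub ((i1 t).const_mul _)
    rw [h4, integral_add i3 ((kc_int hc).const_mul _),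
      integral_sub (i2 t) ((i1 t).const_mul _), integral_const_mul, integral_const_mul,
      kc_integral hc, ← hA, ← hB, ← hM] at h3
    rw [← hA, ← hB, ← hM]
    have h5 : B - 2 * (A / M) * A + (A / M) ^ 2 * M = B - A ^ 2 / M := by
      field_simp
      ring
    rw [h5] at h3
    have h6 : A ^ 2 / M ≤ B := by linarith
    rw [div_le_iff₀ hM0] at h6
    linarith
  -- integrate
  have hf2 := wn_sq_int (Z := Z) (w := w) (p := p) (L := L) hw
  have h4 := integral_convolution (ContinuousLinearMap.mul ℝ ℝ) (kc_int hc) hf2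
  have h5 := (kc_int hc).integrable_convolution (ContinuousLinearMap.mul ℝ ℝ) hf2
  have h6 : (convolution (fun r => ka (c * r)) (fun t => wn Z w p L t ^ 2)
      (ContinuousLinearMap.mul ℝ ℝ) volume) =
      fun t => ∫ r, ka (c * r) * wn Z w p L (t - r) ^ 2 := by
    funext t
    rfl
  rw [h6] at h4 h5
  rw [kc_integral hc] at h4
  have h7 : ∀ t, (∑ s ∈ Z, w s * ka (c * (p s - t))) ^ 2 ≤
      9 * L ^ 2 * (Real.pi / c) * ∫ r, ka (c * r) * wn Z w p L (t - r) ^ 2 := by
    intro t
    have h8 : 0 ≤ ∑ s ∈ Z, w s * ka (c * (p s - t)) :=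
      Finset.sum_nonneg fun s hs => mul_nonneg (hw s hs) (ka_pos _).le
    calc _ ≤ (3 * L * ∫ r, ka (c * r) * wn Z w p L (t - r)) ^ 2 := pow_le_pow_left₀ h8 (h1 t) 2
      _ = 9 * L ^ 2 * (∫ r, ka (c * r) * wn Z w p L (t - r)) ^ 2 := by ring
      _ ≤ 9 * L ^ 2 * (Real.pi / c * ∫ r, ka (c * r) * wn Z w p L (t - r) ^ 2) :=
          mul_le_mul_of_nonneg_left (h2 t) (by positivity)
      _ = _ := by ring
  refine (integral_mono_of_nonneg (Eventually.of_forall fun t => sq_nonneg _)
    (h5.const_mul (9 * L ^ 2 * (Real.pi / c))) (Eventually.of_forall h7)).trans ?_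
  rw [integral_const_mul, h4]
  show 9 * L ^ 2 * (Real.pi / c) * (Real.pi / c * ∫ t, wn Z w p L t ^ 2) ≤ _
  refine le_of_eq ?_
  field_simp

theorem t_L2K : S_L2K :=
  ⟨9 * Real.pi ^ 2, by positivity, l2k⟩

/-- lower bound for the correlation of two kernels -/
lemma ka_pair (hc : 0 < c) (x y : ℝ) :
    Integrable (fun t => ka (c * (x - t)) * ka (c * (y - t))) ∧
    ka (c * (x - y)) ≤ 3 * c * ∫ t, ka (c * (x - t)) * ka (c * (y - t)) := by
  have hi : Integrable (fun t => ka (c * (x - t))) := (kc_int hc).comp_sub_left x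
  have hi2 : Integrable (fun t => ka (c * (x - t)) * ka (c * (y - t))) := by
    refine hi.mono' ?_ (Eventually.of_forall fun t => ?_)
    · exact ((ka_cont.comp (by fun_prop)).mul (ka_cont.comp (by fun_prop))).aestronglyMeasurable
    · rw [Real.norm_eq_abs, abs_of_nonneg (mul_nonneg (ka_pos _).le (ka_pos _).le)]
      exact mul_le_of_le_one_right (ka_pos _).le (ka_le_one _)
  refine ⟨hi2, ?_⟩
  have h1 : ∫ t, ka (c * (x - y)) / 6 *
      (Set.Ico (x - 1 / c) (x + 1 / c)).indicator (fun _ => (1 : ℝ)) t ≤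
      ∫ t, ka (c * (x - t)) * ka (c * (y - t)) := by
    refine integral_mono ((ind_int _ _).const_mul _) hi2 fun t => ?_
    show ka (c * (x - y)) / 6 *
      (Set.Ico (x - 1 / c) (x + 1 / c)).indicator (fun _ => (1 : ℝ)) t ≤
      ka (c * (x - t)) * ka (c * (y - t))
    by_cases hm : t ∈ Set.Ico (x - 1 / c) (x + 1 / c)
    · rw [Set.indicator_of_mem hm, mul_one]
      obtain ⟨h2, h3⟩ := hm
      have h5 : |x - t| ≤ 1 / c := by
        rw [abs_le]
        constructor <;> linarith
      have h4 : |c * (x - t)| ≤ 1 := by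
        rw [abs_mul, abs_of_pos hc]
        calc c * |x - t| ≤ c * (1 / c) := mul_le_mul_of_nonneg_left h5 hc.le
          _ = 1 := by field_simp
      have h6 : 1 / 2 ≤ ka (c * (x - t)) := by
        unfold ka
        rw [div_le_div_iff₀ (by norm_num) (by positivity)]
        have : (c * (x - t)) ^ 2 ≤ 1 := by
          rw [← sq_abs]
          exact pow_le_one₀ (abs_nonneg _) h4
        linarith
      have h7 : |c * (y - t) - c * (y - x)| ≤ 1 := by
        have : c * (y - t) - c * (y - x) = c * (x - t) := by ring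
        rw [this]
        exact h4
      have h8 := ka_near h7
      have h9 : ka (c * (x - y)) = ka (c * (y - x)) := by
        rw [← ka_even]
        ring_nf
      rw [h9]
      have := ka_pos (c * (y - t))
      nlinarith
    · rw [Set.indicator_of_notMem hm, mul_zero]
      exact mul_nonneg (ka_pos _).le (ka_pos _).le
  have h0 : 0 < 1 / c := by positivity
  rw [integral_const_mul, ind_integral (by linarith)] at h1
  have h3 := mul_le_mul_of_nonneg_left h1 (show 0 ≤ 3 * c by positivity)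
  refine le_trans (le_of_eq ?_) h3
  field_simp
  ring

theorem t_PB (hL2K : S_L2K) : S_PB := by
  obtain ⟨C, hC, h⟩ := hL2K
  refine ⟨3 * C, by positivity, ?_⟩
  intro ι Z w p L c hc hcL hw
  have h1 : ∫ t : ℝ, (∑ s ∈ Z, w s * ka (c * (p s - t))) ^ 2 =
      ∑ s ∈ Z, ∑ s' ∈ Z, w s * w s' * ∫ t, ka (c * (p s - t)) * ka (c * (p s' - t)) := by
    have h2 : (fun t : ℝ => (∑ s ∈ Z, w s * ka (c * (p s - t))) ^ 2) = fun t =>
        ∑ s ∈ Z, ∑ s' ∈ Z, w s * w s' * (ka (c * (p s - t)) * ka (c * (p s' - t))) := by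
      funext t
      rw [sq, Finset.sum_mul_sum]
      exact Finset.sum_congr rfl fun s _ => Finset.sum_congr rfl fun s' _ => by ring
    rw [h2, integral_finsetSum]
    · refine Finset.sum_congr rfl fun s _ => ?_
      rw [integral_finsetSum]
      · exact Finset.sum_congr rfl fun s' _ => by rw [integral_const_mul]
      · exact fun s' _ => (ka_pair hc (p s) (p s')).1.const_mul _
    · exact fun s _ => integrable_finsetSum _ fun s' _ => (ka_pair hc (p s) (p s')).1.const_mul _
  have h3 : ∑ s ∈ Z, ∑ s' ∈ Z, w s * w s' * ka (c * (p s - p s')) ≤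
      3 * c * ∫ t : ℝ, (∑ s ∈ Z, w s * ka (c * (p s - t))) ^ 2 := by
    rw [h1, Finset.mul_sum]
    refine Finset.sum_le_sum fun s hs => ?_
    rw [Finset.mul_sum]
    refine Finset.sum_le_sum fun s' hs' => ?_
    have := mul_le_mul_of_nonneg_left (ka_pair hc (p s) (p s')).2 (mul_nonneg (hw s hs) (hw s' hs'))
    linarith
  refine h3.trans ?_
  refine (mul_le_mul_of_nonneg_left (h ι Z w p L c hc hcL hw)
    (show 0 ≤ 3 * c by positivity)).trans (le_of_eq ?_)
  field_simp

theorem t_CWG : S_CWG := by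
  obtain ⟨C, hC, h⟩ := t_PB t_L2K
  refine ⟨4 * C, by positivity, ?_⟩
  intro ι Z c p L hL hc
  have h1 := h ι Z c p L L hL le_rfl hc
  have h2 : ∀ x : ℝ, Real.exp (-x ^ 2 / 4) ≤ 4 * ka x := by
    intro x
    have h3 : 1 + x ^ 2 / 4 ≤ Real.exp (x ^ 2 / 4) := by
      have := Real.add_one_le_exp (x ^ 2 / 4)
      linarith
    have h4 : Real.exp (-x ^ 2 / 4) = (Real.exp (x ^ 2 / 4))⁻¹ := by
      rw [← Real.exp_neg]
      ring_nf
    rw [h4]
    unfold ka
    rw [mul_one_div, inv_eq_one_div, div_le_div_iff₀ (Real.exp_pos _) (by positivity)]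
    nlinarith
  calc ∑ s ∈ Z, ∑ s' ∈ Z, c s * c s' * Real.exp (-(L * (p s - p s')) ^ 2 / 4)
      ≤ ∑ s ∈ Z, ∑ s' ∈ Z, 4 * (c s * c s' * ka (L * (p s - p s'))) := by
        refine Finset.sum_le_sum fun s hs => Finset.sum_le_sum fun s' hs' => ?_
        have := mul_le_mul_of_nonneg_left (h2 (L * (p s - p s')))
          (mul_nonneg (hc s hs) (hc s' hs'))
        linarith
    _ = 4 * ∑ s ∈ Z, ∑ s' ∈ Z, c s * c s' * ka (L * (p s - p s')) := by
        rw [Finset.mul_sum]
        exact Finset.sum_congr rfl fun s _ => by rw [Finset.mul_sum]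
    _ ≤ 4 * (C * (L ^ 2 / L) * ∫ t : ℝ, wn Z c p L t ^ 2) :=
        mul_le_mul_of_nonneg_left h1 (by norm_num)
    _ = _ := by
        have : L ^ 2 / L = L := by field_simp
        rw [this]
        ring

end Pool.Agent.H71.OS.PB
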